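import Pool.Agent.X139.UT.Mom

/-!
# Asymptotics and the main theorem
-/

set_option autoImplicit false

namespace Pool.Agent.X139.UT

open Finset Filter Topology
open scoped Classical

/-- the size threshold -/
noncomputable def sy (y : ℝ) (n : ℕ) : ℕ := ⌈y * n⌉₊

lemma sy_div {y : ℝ} (hy : 0 ≤ y) : Tendsto (fun n : ℕ => (sy y n : ℝ) / n) atTop (𝓝 y) :=
  (tendsto_nat_ceil_mul_div_atTop hy).comp tendsto_natCast_atTop_atTop

lemma sy_shift {y : ℝ} (hy : 0 ≤ y) (b : ℝ) :
    Tendsto (fun n : ℕ => ((sy y n : ℝ) + b) / n) atTop (𝓝 y) := by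
  have h := (sy_div hy).add (tendsto_const_div_atTop_nhds_zero_nat b)
  rw [add_zero] at h
  refine h.congr fun n => ?_
  ring

lemma sy_le_half {y : ℝ} (hy : 0 ≤ y) (hy2 : y < 1 / 2) :
    ∀ᶠ n : ℕ in atTop, 2 * sy y n ≤ n + 2 := by
  filter_upwards [(sy_div hy).eventually_lt_const hy2, eventually_ge_atTop 1] with n hn hn1
  have hn0 : (0 : ℝ) < n := by exact_mod_cast hn1
  rw [div_lt_iff₀ hn0] at hn
  have : ((2 * sy y n : ℕ) : ℝ) ≤ ((n + 2 : ℕ) : ℝ) := by push_cast; linarith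
  exact_mod_cast this

lemma sy_ge {y : ℝ} (hy : 0 < y) (B : ℕ) : ∀ᶠ n : ℕ in atTop, B ≤ sy y n := by
  have h : Tendsto (fun n : ℕ => y * n) atTop atTop :=
    tendsto_natCast_atTop_atTop.const_mul_atTop hy
  filter_upwards [h.eventually_ge_atTop (B : ℝ)] with n hn
  have : (B : ℝ) ≤ sy y n := hn.trans (Nat.le_ceil _)
  exact_mod_cast this

lemma P_tendsto {y : ℝ} (hy : 0 < y) (hy2 : y < 1 / 2) (v : ℕ) :
    Tendsto (fun n : ℕ => P n v (sy y n)) atTop (𝓝 ((1 - y) ^ v)) := by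
  have hup : Tendsto (fun n : ℕ => (1 - ((sy y n : ℝ) - 1) / n) ^ v) atTop (𝓝 ((1 - y) ^ v)) := by
    have h := ((sy_shift hy.le (-1)).const_sub 1).pow v
    refine h.congr fun n => ?_
    rw [sub_eq_add_neg (sy y n : ℝ)]
  have hlo : Tendsto (fun n : ℕ => (1 - ((sy y n : ℝ) + v - 2) / n) ^ v) atTop
      (𝓝 ((1 - y) ^ v)) := by
    have h := ((sy_shift hy.le ((v : ℝ) - 2)).const_sub 1).pow v
    refine h.congr fun n => ?_
    rw [add_sub_assoc]
  refine tendsto_of_tendsto_of_tendsto_of_le_of_le' hlo hup ?_ ?_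
  · filter_upwards [sy_le_half hy.le hy2, sy_ge hy 1, eventually_ge_atTop (2 * v + 2)]
      with n h1 h2 h3
    rcases P_lower (n := n) (v := v) (k := sy y n) (by omega) h2 (by omega) (by omega) with h | h
    · exact h
    · subst h
      rw [P_zero (by omega), pow_zero]
  · filter_upwards [sy_le_half hy.le hy2, sy_ge hy 1, eventually_ge_atTop (v + 1)]
      with n h1 h2 h3
    exact P_upper (by omega) h2 (by omega) (by omega)

lemma ratio_tendsto {y : ℝ} (hy : 0 < y) :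
    Tendsto (fun n : ℕ => (n : ℝ) / ((sy y n : ℝ) - 1)) atTop (𝓝 (1 / y)) := by
  have h := (sy_shift hy.le (-1)).inv₀ hy.ne'
  rw [one_div]
  refine h.congr fun n => ?_
  rw [inv_div, sub_eq_add_neg (sy y n : ℝ)]

/-- the mean number of large subtrees -/
noncomputable def mean (V : Finset ℕ) (y : ℝ) (n : ℕ) : ℝ := ∑ v ∈ V, P n v (sy y n)

lemma mean_K {y : ℝ} (hy : 0 < y) (hy2 : y < 1 / 2) (K : ℕ) :
    Tendsto (fun n => mean (range K) y n) atTop (𝓝 ((1 - (1 - y) ^ K) / y)) := by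
  have h : Tendsto (fun n => mean (range K) y n) atTop (𝓝 (∑ v ∈ range K, (1 - y) ^ v)) :=
    tendsto_finset_sum _ fun v _ => P_tendsto hy hy2 v
  have e : ∑ v ∈ range K, (1 - y) ^ v = (1 - (1 - y) ^ K) / y := by
    rw [geom_sum_eq (by linarith)]
    rw [div_eq_div_iff (by linarith) hy.ne']
    ring
  rwa [e] at h

lemma mean_tot {y : ℝ} (hy : 0 < y) (hy2 : y < 1 / 2) :
    Tendsto (fun n => mean (range (n + 1)) y n) atTop (𝓝 (1 / y)) := by
  rw [tendsto_order]
  constructor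
  · intro a ha
    -- choose a large initial segment
    have h1 : Tendsto (fun B : ℕ => (1 - (1 - y) ^ B) / y) atTop (𝓝 ((1 - 0) / y)) :=
      ((tendsto_pow_atTop_nhds_zero_of_lt_one (by linarith) (by linarith)).const_sub 1).div_const y
    rw [sub_zero] at h1
    obtain ⟨B, hB⟩ := (h1.eventually_const_lt ha).exists
    filter_upwards [(mean_K hy hy2 B).eventually_const_lt hB, eventually_ge_atTop B] with n hn hn2
    refine hn.trans_le ?_
    unfold mean
    apply sum_le_sum_of_subset_of_nonneg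
    · intro v hv
      rw [mem_range] at hv ⊢
      omega
    · intro v _ _
      exact P_nonneg _ _ _
  · intro a ha
    filter_upwards [(ratio_tendsto hy).eventually_lt_const ha, sy_ge hy 2,
      sy_le_half hy.le hy2, eventually_ge_atTop 2] with n hn h2 h3 h4
    refine lt_of_le_of_lt ?_ hn
    have hn0 : (0 : ℝ) < n := by exact_mod_cast (by omega : 0 < n)
    have hs0 : (0 : ℝ) < (sy y n : ℝ) - 1 := by
      have : (2 : ℝ) ≤ sy y n := by exact_mod_cast h2
      linarith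
    have hsn : (sy y n : ℝ) - 1 ≤ n := by
      have : sy y n ≤ n + 1 := by omega
      have : (sy y n : ℝ) ≤ n + 1 := by exact_mod_cast this
      linarith
    set q : ℝ := 1 - ((sy y n : ℝ) - 1) / n with hq
    have hq0 : 0 ≤ q := by
      rw [hq, sub_nonneg, div_le_one hn0]
      exact hsn
    have hq1 : q < 1 := by
      rw [hq]
      have : 0 < ((sy y n : ℝ) - 1) / n := by positivity
      linarith
    have hY : 1 / (1 - q) = n / ((sy y n : ℝ) - 1) := by
      rw [hq, sub_sub_cancel, one_div_div]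
    rw [← hY]
    refine le_trans ?_ (geom_le hq0 hq1 (range (n + 1)))
    apply sum_le_sum
    intro v hv
    rw [mem_range] at hv
    exact P_upper (by omega) (by omega) (by omega) (by omega)

/-- the limiting fraction -/
noncomputable def phi (c : ℝ) : ℝ := c * (1 - Real.exp (-1 / c))

lemma phi_cont {c : ℝ} (hc : 0 < c) : ContinuousAt phi c := by
  unfold phi
  apply ContinuousAt.mul continuousAt_id
  apply ContinuousAt.sub continuousAt_const
  apply Real.continuous_exp.continuousAt.comp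
  exact ContinuousAt.div continuousAt_const continuousAt_id hc.ne'

lemma phi_tendsto {b : ℝ} (hb : 0 < b) :
    Tendsto (fun K : ℕ => b * (1 - (1 - 1 / (b * K)) ^ K)) atTop (𝓝 (phi b)) := by
  have h := Real.tendsto_one_add_div_pow_exp (-1 / b)
  have h2 := (h.const_sub 1).const_mul b
  refine h2.congr fun K => ?_
  have e : 1 + -1 / b / (K : ℝ) = 1 - 1 / (b * K) := by
    rw [div_div, neg_div, ← sub_eq_add_neg]
  rw [e]

/-- the bad event: for some way of breaking the ties, the fraction of the first `K` vertices among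
the `⌈c K⌉` most central ones is not within `δ` of `φ(c)` -/
def Bad (c δ : ℝ) (K n : ℕ) (p : ℕ → ℕ) : Prop :=
  ∃ A : Finset (Fin (n + 1)), IsTop (tree n p) ⌈c * K⌉₊ A ∧
    δ < |((A.filter (fun x : Fin (n + 1) => (x : ℕ) < K)).card : ℝ) / K - phi c|

theorem main (c : ℝ) (hc : 1 < c) (δ ε : ℝ) (hδ : 0 < δ) (hε : 0 < ε) :
    ∃ K₀ : ℕ, ∀ K, K₀ ≤ K → ∀ᶠ n : ℕ in atTop,
      E n (fun p => if Bad c δ K n p then 1 else 0) ≤ ε := by
  have hc0 : 0 < c := by linarith
  obtain ⟨ρ, hρ, hφ⟩ := Metric.continuousAt_iff.1 (phi_cont hc0) (δ / 4) (by positivity)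
  set η : ℝ := min (min (ρ / 8) (δ / 16)) ((c - 1) / 8) with hη
  have hη0 : 0 < η := lt_min (lt_min (by positivity) (by positivity)) (by linarith)
  have hη1 : η ≤ ρ / 8 := (min_le_left _ _).trans (min_le_left _ _)
  have hη2 : η ≤ δ / 16 := (min_le_left _ _).trans (min_le_right _ _)
  have hη3 : η ≤ (c - 1) / 8 := min_le_right _ _
  set c₁ := c + 4 * η with hc1
  set c₂ := c - 4 * η with hc2
  have hc10 : 0 < c₁ := by linarith
  have hc11 : 1 < c₁ := by linarith
  have hc21 : 1 < c₂ := by linarith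
  have hc20 : 0 < c₂ := by linarith
  have hφ1 : |phi c₁ - phi c| < δ / 4 := by
    have := hφ (x := c₁) (by rw [Real.dist_eq, hc1, add_sub_cancel_left, abs_of_pos (by positivity)]; linarith)
    rwa [Real.dist_eq] at this
  have hφ2 : |phi c₂ - phi c| < δ / 4 := by
    have := hφ (x := c₂) (by
      rw [Real.dist_eq, hc2, show c - 4 * η - c = -(4 * η) by ring, abs_neg,
        abs_of_pos (by positivity)]; linarith)
    rwa [Real.dist_eq] at this
  obtain ⟨m, hm⟩ := exists_nat_gt (max 1 (128 * c₁ ^ 2 / (η ^ 2 * ε)))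
  have hm1 : 1 ≤ m := by
    have : (1 : ℝ) < m := (le_max_left _ _).trans_lt hm
    exact_mod_cast this.le
  have hm0 : (0 : ℝ) < m := by exact_mod_cast hm1
  have hm2 : 8 * c₁ ^ 2 / (m * η ^ 2) ≤ ε / 16 := by
    have h1 : 128 * c₁ ^ 2 / (η ^ 2 * ε) < m := (le_max_right _ _).trans_lt hm
    rw [div_lt_iff₀ (by positivity)] at h1
    rw [div_le_iff₀ (by positivity)]
    nlinarith
  -- conditions on `K`
  have k1 : ∀ᶠ K : ℕ in atTop, |c₁ * (1 - (1 - 1 / (c₁ * K)) ^ K) - phi c₁| < η := by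
    have := Metric.tendsto_nhds.1 (phi_tendsto hc10) η hη0
    simpa only [Real.dist_eq] using this
  have k2 : ∀ᶠ K : ℕ in atTop, |c₂ * (1 - (1 - 1 / (c₂ * K)) ^ K) - phi c₂| < η := by
    have := Metric.tendsto_nhds.1 (phi_tendsto hc20) η hη0
    simpa only [Real.dist_eq] using this
  have k3 : ∀ᶠ K : ℕ in atTop, 1 / η ≤ (K : ℝ) :=
    tendsto_natCast_atTop_atTop.eventually_ge_atTop _
  have k4 : ∀ᶠ K : ℕ in atTop, 2 * c₁ * (1 + 2 * m) / (η ^ 2 * (ε / 16)) ≤ (K : ℝ) :=
    tendsto_natCast_atTop_atTop.eventually_ge_atTop _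
  have k5 : ∀ᶠ K : ℕ in atTop, 8 / (η * ε) ≤ (K : ℝ) :=
    tendsto_natCast_atTop_atTop.eventually_ge_atTop _
  obtain ⟨K₀, hK₀⟩ := eventually_atTop.1
    (k1.and (k2.and (k3.and (k4.and (k5.and (eventually_ge_atTop 3))))))
  refine ⟨K₀, fun K hK => ?_⟩
  obtain ⟨k1, k2, k3, k4, k5, k6⟩ := hK₀ K hK
  have hK3 : (3 : ℝ) ≤ K := by exact_mod_cast k6
  have hK0 : (0 : ℝ) < K := by linarith
  have hηK : 1 ≤ η * K := by
    rw [div_le_iff₀ hη0] at k3
    linarith
  have hηK0 : 0 < η * K := by linarith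
  set y₁ : ℝ := 1 / (c₁ * K) with hy1
  set y₂ : ℝ := 1 / (c₂ * K) with hy2
  have hy10 : 0 < y₁ := by positivity
  have hy20 : 0 < y₂ := by positivity
  have hy1h : y₁ < 1 / 2 := by
    rw [hy1]
    apply one_div_lt_one_div_of_lt (by norm_num)
    nlinarith
  have hy2h : y₂ < 1 / 2 := by
    rw [hy2]
    apply one_div_lt_one_div_of_lt (by norm_num)
    nlinarith
  have hi1 : 1 / y₁ = c₁ * K := by rw [hy1, one_div_one_div]
  have hi2 : 1 / y₂ = c₂ * K := by rw [hy2, one_div_one_div]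
  -- the Chebyshev bound
  set X : ℝ := 2 * c₁ * K with hX
  have hcheb : (X + 2 * (X ^ 2 / m + m * X)) / (η * K) ^ 2 ≤ ε / 8 := by
    have e : (X + 2 * (X ^ 2 / m + m * X)) / (η * K) ^ 2 =
        2 * c₁ * (1 + 2 * m) / (η ^ 2 * K) + 8 * c₁ ^ 2 / (m * η ^ 2) := by
      rw [hX]
      field_simp
      ring
    rw [e]
    have h1 : 2 * c₁ * (1 + 2 * m) / (η ^ 2 * K) ≤ ε / 16 := by
      rw [div_le_iff₀ (by positivity)] at k4 ⊢
      linarith
    linarith
  -- conditions on `n`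
  have n4 := Metric.tendsto_nhds.1 (mean_tot hy10 hy1h) (η * K) hηK0
  have n5 := Metric.tendsto_nhds.1 (mean_tot hy20 hy2h) (η * K) hηK0
  have n6 := Metric.tendsto_nhds.1 (mean_K hy10 hy1h K) (η * K) hηK0
  have n7 := Metric.tendsto_nhds.1 (mean_K hy20 hy2h K) (η * K) hηK0
  have r1 : ∀ᶠ n : ℕ in atTop, (n : ℝ) / ((sy y₁ n : ℝ) - 1) ≤ X :=
    (ratio_tendsto hy10).eventually_le_const (by rw [hi1, hX]; nlinarith)
  have r2 : ∀ᶠ n : ℕ in atTop, (n : ℝ) / ((sy y₂ n : ℝ) - 1) ≤ X :=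
    (ratio_tendsto hy20).eventually_le_const (by rw [hi2, hX]; nlinarith)
  filter_upwards [n4, n5, n6, n7, r1, r2, sy_le_half hy10.le hy1h, sy_le_half hy20.le hy2h,
    sy_ge hy10 2, sy_ge hy20 2, eventually_ge_atTop (K + 1)]
    with n n4 n5 n6 n7 r1 r2 l1 l2 g1 g2 hnK
  rw [Real.dist_eq, hi1] at n4
  rw [Real.dist_eq, hi2] at n5
  rw [Real.dist_eq, div_eq_mul_one_div _ y₁, hi1] at n6
  rw [Real.dist_eq, div_eq_mul_one_div _ y₂, hi2] at n7
  have hVK : range K ⊆ range (n + 1) := by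
    intro v hv
    rw [mem_range] at hv ⊢
    omega
  have b1 := cheb (range (n + 1)) (sy y₁ n) n m hm1 (Subset.refl _) g1 (by omega) hηK0 X r1
  have b2 := cheb (range (n + 1)) (sy y₂ n) n m hm1 (Subset.refl _) g2 (by omega) hηK0 X r2
  have b3 := cheb (range K) (sy y₁ n) n m hm1 hVK g1 (by omega) hηK0 X r1
  have b4 := cheb (range K) (sy y₂ n) n m hm1 hVK g2 (by omega) hηK0 X r2
  have b5 : E n (fun p => if η * K <
      (NV (range (n + 1)) ((n + 1) / 2 + 1) n p : ℝ) then 1 else 0) ≤ ε / 4 := by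
    refine (markov (Φ := fun p => (NV (range (n + 1)) ((n + 1) / 2 + 1) n p : ℝ))
      (fun p => Nat.cast_nonneg _) hηK0 _ (fun p hp => hp.le)).trans ?_
    refine (div_le_div_of_nonneg_right (E_heavy n (by omega)) hηK0.le).trans ?_
    rw [div_le_iff₀ hηK0]
    rw [div_le_iff₀ (by positivity)] at k5
    nlinarith
  have hbad : E n (fun p => if Bad c δ K n p then 1 else 0) ≤
      E n (fun p => (if η * K < |(NV (range (n + 1)) (sy y₁ n) n p : ℝ) -
          ∑ v ∈ range (n + 1), P n v (sy y₁ n)| then 1 else 0) +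
        ((if η * K < |(NV (range (n + 1)) (sy y₂ n) n p : ℝ) -
          ∑ v ∈ range (n + 1), P n v (sy y₂ n)| then 1 else 0) +
        ((if η * K < |(NV (range K) (sy y₁ n) n p : ℝ) -
          ∑ v ∈ range K, P n v (sy y₁ n)| then 1 else 0) +
        ((if η * K < |(NV (range K) (sy y₂ n) n p : ℝ) -
          ∑ v ∈ range K, P n v (sy y₂ n)| then 1 else 0) +
        (if η * K < (NV (range (n + 1)) ((n + 1) / 2 + 1) n p : ℝ) then 1 else 0))))) := by
    apply E_mono
    intro p hp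
    by_cases q1 : η * K < |(NV (range (n + 1)) (sy y₁ n) n p : ℝ) -
          ∑ v ∈ range (n + 1), P n v (sy y₁ n)|
    · rw [if_pos q1]; split_ifs <;> norm_num
    by_cases q2 : η * K < |(NV (range (n + 1)) (sy y₂ n) n p : ℝ) -
          ∑ v ∈ range (n + 1), P n v (sy y₂ n)|
    · rw [if_pos q2]; split_ifs <;> norm_num
    by_cases q3 : η * K < |(NV (range K) (sy y₁ n) n p : ℝ) -
          ∑ v ∈ range K, P n v (sy y₁ n)|
    · rw [if_pos q3]; split_ifs <;> norm_num
    by_cases q4 : η * K < |(NV (range K) (sy y₂ n) n p : ℝ) -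
          ∑ v ∈ range K, P n v (sy y₂ n)|
    · rw [if_pos q4]; split_ifs <;> norm_num
    by_cases q5 : η * K < (NV (range (n + 1)) ((n + 1) / 2 + 1) n p : ℝ)
    · rw [if_pos q5]; split_ifs <;> norm_num
    have hnb : ¬ Bad c δ K n p := by
      rintro ⟨A, hA, hAδ⟩
      push Not at q1 q2 q3 q4 q5
      rw [abs_le] at q1 q2 q3 q4
      rw [abs_lt] at n4 n5 n6 n7 k1 k2 hφ1 hφ2
      unfold mean at n4 n5 n6 n7
      have hceil : (⌈c * K⌉₊ : ℝ) ≤ c * K + 1 := (Nat.ceil_lt_add_one (by positivity)).le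
      have hceil2 : c * K ≤ (⌈c * K⌉₊ : ℝ) := Nat.le_ceil _
      have hfl : (⌊η * K⌋₊ : ℝ) ≤ η * K := Nat.floor_le hηK0.le
      have hW : NV (range (n + 1)) ((n + 1) / 2 + 1) n p ≤ ⌊η * K⌋₊ := Nat.le_floor q5
      have h1 : ⌈c * K⌉₊ + ⌊η * K⌋₊ ≤ NV (range (n + 1)) (sy y₁ n) n p := by
        have : ((⌈c * K⌉₊ + ⌊η * K⌋₊ : ℕ) : ℝ) ≤ (NV (range (n + 1)) (sy y₁ n) n p : ℝ) := by
          push_cast
          have e : c₁ * K = c * K + 4 * (η * K) := by rw [hc1]; ring
          linarith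
        exact_mod_cast this
      have h2 : NV (range (n + 1)) (sy y₂ n) n p ≤ ⌈c * K⌉₊ := by
        have : (NV (range (n + 1)) (sy y₂ n) n p : ℝ) ≤ ((⌈c * K⌉₊ : ℕ) : ℝ) := by
          have e : c₂ * K = c * K - 4 * (η * K) := by rw [hc2]; ring
          linarith
        exact_mod_cast this
      obtain ⟨t1, t2⟩ := top_bounds hp ⌈c * K⌉₊ K (sy y₁ n) (sy y₂ n) ⌊η * K⌋₊ l1 l2 (by omega)
        hW h1 h2 A hA
      set a := (A.filter (fun x : Fin (n + 1) => (x : ℕ) < K)).card with ha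
      have t1' : (a : ℝ) ≤ NV (range K) (sy y₁ n) n p := by exact_mod_cast t1
      have t2' : (NV (range K) (sy y₂ n) n p : ℝ) ≤ a + ⌊η * K⌋₊ := by exact_mod_cast t2
      have m1 : (1 - (1 - y₁) ^ K) * (c₁ * K) ≤ (phi c₁ + η) * K := by
        have e : (1 - (1 - y₁) ^ K) * (c₁ * K) = (c₁ * (1 - (1 - 1 / (c₁ * K)) ^ K)) * K := by
          rw [hy1]; ring
        rw [e]
        apply mul_le_mul_of_nonneg_right _ hK0.le
        linarith
      have m2 : (phi c₂ - η) * K ≤ (1 - (1 - y₂) ^ K) * (c₂ * K) := by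
        have e : (1 - (1 - y₂) ^ K) * (c₂ * K) = (c₂ * (1 - (1 - 1 / (c₂ * K)) ^ K)) * K := by
          rw [hy2]; ring
        rw [e]
        apply mul_le_mul_of_nonneg_right _ hK0.le
        linarith
      have u1 : (a : ℝ) ≤ (phi c + δ) * K := by
        have h3 : (phi c₁ + η) * K + 2 * (η * K) ≤ (phi c + δ) * K := by
          have : phi c₁ + 3 * η ≤ phi c + δ := by linarith
          nlinarith
        linarith
      have u2 : (phi c - δ) * K ≤ a := by
        have h3 : (phi c - δ) * K ≤ (phi c₂ - η) * K - 3 * (η * K) := by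
          have : phi c - δ ≤ phi c₂ - 4 * η := by linarith
          nlinarith
        linarith
      apply absurd hAδ
      rw [not_lt, abs_le]
      constructor
      · have : phi c - δ ≤ (a : ℝ) / K := by rw [le_div_iff₀ hK0]; exact u2
        linarith
      · have : (a : ℝ) / K ≤ phi c + δ := by rw [div_le_iff₀ hK0]; exact u1
        linarith
    rw [if_neg hnb]
    split_ifs <;> norm_num
  refine hbad.trans ?_
  rw [E_add, E_add, E_add, E_add]
  linarith

end Pool.Agent.X139.UT
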