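import Pool.Agent.X139.UT.Tree

/-!
# Centrality and subtree sizes
-/

set_option autoImplicit false

namespace Pool.Agent.X139.UT

open Finset
open scoped Classical

/-- the tree with the vertices `0, ..., n` and the edges `{i, p i}` -/
def tree (n : ℕ) (p : ℕ → ℕ) : SimpleGraph (Fin (n + 1)) where
  Adj i j := i ≠ j ∧ (p i = j ∨ p j = i)
  symm := ⟨fun _ _ h => ⟨h.1.symm, h.2.symm⟩⟩
  loopless := ⟨fun _ h => h.1 rfl⟩

/-- the graph with all the edges at `v` deleted -/
def del {n : ℕ} (G : SimpleGraph (Fin (n + 1))) (v : Fin (n + 1)) : SimpleGraph (Fin (n + 1)) where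
  Adj i j := G.Adj i j ∧ i ≠ v ∧ j ≠ v
  symm := ⟨fun _ _ h => ⟨h.1.symm, h.2.2, h.2.1⟩⟩
  loopless := ⟨fun _ h => h.1.ne rfl⟩

/-- the centrality: the number of vertices of the largest component left after deleting `v` -/
noncomputable def psi {n : ℕ} (G : SimpleGraph (Fin (n + 1))) (v : Fin (n + 1)) : ℕ :=
  (univ.erase v).sup (fun w => (univ.filter (fun x => (del G v).Reachable w x)).card)

/-- `A` is a set of `m` most central vertices (for some way of breaking the ties) -/
def IsTop {n : ℕ} (G : SimpleGraph (Fin (n + 1))) (m : ℕ) (A : Finset (Fin (n + 1))) : Prop :=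
  A.card = m ∧ ∀ a ∈ A, ∀ b, b ∉ A → psi G a ≤ psi G b

lemma card_range_fin (n : ℕ) (Q : ℕ → Prop) [DecidablePred Q] :
    ((range (n + 1)).filter Q).card =
      ((univ : Finset (Fin (n + 1))).filter (fun x : Fin (n + 1) => Q x)).card := by
  have e : (range (n + 1)).filter Q =
      ((univ : Finset (Fin (n + 1))).filter (fun x : Fin (n + 1) => Q x)).map Fin.valEmbedding := by
    ext v
    rw [mem_map, mem_filter, mem_range]
    constructor
    · rintro ⟨hv, hs⟩
      refine ⟨⟨v, hv⟩, ?_, rfl⟩
      rw [mem_filter]
      exact ⟨mem_univ _, hs⟩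
    · rintro ⟨x, hx, rfl⟩
      rw [mem_filter] at hx
      exact ⟨x.2, hx.2⟩
  rw [e, card_map]

lemma S_eq_card {n : ℕ} (p : ℕ → ℕ) (v : ℕ) :
    S p v n = ((univ : Finset (Fin (n + 1))).filter (fun x : Fin (n + 1) => desc p v x)).card :=
  card_range_fin n (fun i => desc p v i)

lemma root_desc {n : ℕ} {p : ℕ → ℕ} (hp : p ∈ PF n) (i : ℕ) : desc p 0 i := by
  rw [mem_PF] at hp
  induction i using Nat.strong_induction_on with
  | _ i ih =>
    rw [desc_iff]
    by_cases h0 : i = 0
    · exact Or.inl h0
    · right
      by_cases hi : i ≤ n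
      · exact ih (p i) (hp.1 i (by omega) hi)
      · rw [hp.2 i (by omega)]
        exact desc_self p 0

lemma S_root {n : ℕ} {p : ℕ → ℕ} (hp : p ∈ PF n) : S p 0 n = n + 1 := by
  unfold S
  rw [filter_true_of_mem (fun i _ => root_desc hp i), card_range]

lemma psi_eq {n : ℕ} {p : ℕ → ℕ} (hp : p ∈ PF n) (v : Fin (n + 1)) (h : 2 * S p v n ≤ n + 1) :
    psi (tree n p) v = n + 1 - S p v n := by
  have hd := dec_of_mem hp
  have hv0 : (v : ℕ) ≠ 0 := by
    intro h0
    rw [h0, S_root hp] at h
    omega
  have h0v : (0 : Fin (n + 1)) ≠ v := fun h0 => hv0 (by rw [← h0]; rfl)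
  have hcard : ((univ : Finset (Fin (n + 1))).filter (fun x : Fin (n + 1) => ¬ desc p v x)).card =
      n + 1 - S p v n := by
    have h1 := card_filter_add_card_filter_not (s := (univ : Finset (Fin (n + 1))))
      (fun x : Fin (n + 1) => desc p v x)
    rw [card_univ, Fintype.card_fin, ← S_eq_card] at h1
    omega
  -- steps preserve being a descendant
  have hstep : ∀ a b : Fin (n + 1), (del (tree n p) v).Adj a b → (desc p v a ↔ desc p v b) := by
    rintro a b ⟨⟨_, hab⟩, hav, hbv⟩
    have hav' : (a : ℕ) ≠ v := fun h => hav (Fin.ext h)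
    have hbv' : (b : ℕ) ≠ v := fun h => hbv (Fin.ext h)
    rcases hab with hab | hab
    · rw [desc_iff p v a, hab]
      exact ⟨fun h => h.resolve_left hav', Or.inr⟩
    · rw [desc_iff p v b, hab]
      exact ⟨Or.inr, fun h => h.resolve_left hbv'⟩
  have hreach : ∀ a b : Fin (n + 1), (del (tree n p) v).Reachable a b →
      (desc p v a ↔ desc p v b) := by
    rintro a b ⟨w⟩
    induction w with
    | nil => exact Iff.rfl
    | cons hadj _ ih => exact (hstep _ _ hadj).trans ih
  have hroot : ∀ i : ℕ, ∀ hi : i < n + 1, ¬ desc p v i →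
      (del (tree n p) v).Reachable ⟨i, hi⟩ 0 := by
    intro i
    induction i using Nat.strong_induction_on with
    | _ i ih =>
      intro hi hnd
      by_cases h0 : i = 0
      · subst h0
        exact SimpleGraph.Reachable.refl _
      · have hpi : p i < i := ((mem_PF n p).1 hp).1 i (by omega) (by omega)
        have hnd2 : ¬ desc p v (p i) := fun hh => hnd ((desc_iff p v i).2 (Or.inr hh))
        have h1 := ih (p i) hpi (by omega) hnd2
        have hadj : (del (tree n p) v).Adj ⟨i, hi⟩ ⟨p i, by omega⟩ := by
          refine ⟨⟨?_, Or.inl rfl⟩, ?_, ?_⟩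
          · intro hh
            have := congrArg Fin.val hh
            simp only at this
            omega
          · intro hh
            apply hnd
            have := congrArg Fin.val hh
            simp only at this
            rw [← this]
            exact desc_self p i
          · intro hh
            apply hnd2
            have := congrArg Fin.val hh
            simp only at this
            rw [← this]
            exact desc_self p (p i)
        exact hadj.reachable.trans h1
  have hnd0 : ¬ desc p v 0 := fun hh => hv0 (Nat.le_zero.1 (desc_le hd hh))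
  unfold psi
  apply le_antisymm
  · apply Finset.sup_le
    intro w hw
    rw [mem_erase] at hw
    by_cases hdw : desc p v w
    · -- inside the subtree
      have hsub : (univ.filter (fun x => (del (tree n p) v).Reachable w x)) ⊆
          ((univ : Finset (Fin (n + 1))).filter (fun x : Fin (n + 1) => desc p v x)).erase v := by
        intro x hx
        rw [mem_filter] at hx
        rw [mem_erase, mem_filter]
        refine ⟨?_, mem_univ _, (hreach w x hx.2).1 hdw⟩
        rintro rfl
        -- `x = v` has no edge
        obtain ⟨q⟩ := hx.2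
        have hne := hw.1
        cases hq : q.reverse with
        | nil => exact hne rfl
        | cons hadj _ => exact hadj.2.1 rfl
      have h1 := card_le_card hsub
      rw [card_erase_of_mem (by rw [mem_filter]; exact ⟨mem_univ _, desc_self p v⟩),
        ← S_eq_card] at h1
      omega
    · rw [← hcard]
      apply card_le_card
      intro x hx
      rw [mem_filter] at hx ⊢
      exact ⟨mem_univ _, fun hh => hdw ((hreach w x hx.2).2 hh)⟩
  · have h1 : (univ.filter (fun x => (del (tree n p) v).Reachable 0 x)).card ≤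
        (univ.erase v).sup (fun w => (univ.filter (fun x =>
          (del (tree n p) v).Reachable w x)).card) :=
      Finset.le_sup (f := fun w => (univ.filter (fun x =>
          (del (tree n p) v).Reachable w x)).card) (by rw [mem_erase]; exact ⟨h0v, mem_univ _⟩)
    refine le_trans ?_ h1
    rw [← hcard]
    apply card_le_card
    intro x hx
    rw [mem_filter] at hx ⊢
    exact ⟨mem_univ _, (hroot x x.2 hx.2).symm⟩

/-- number of vertices of `V` with at least `s` descendants -/
noncomputable def NV (V : Finset ℕ) (s n : ℕ) (p : ℕ → ℕ) : ℕ := (V.filter (fun v => s ≤ S p v n)).card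

/-- the deterministic part -/
lemma top_bounds {n : ℕ} {p : ℕ → ℕ} (hp : p ∈ PF n) (m K s₁ s₂ W : ℕ)
    (hs1 : 2 * s₁ ≤ n + 2) (hs2 : 2 * s₂ ≤ n + 2) (hK : K ≤ n + 1)
    (hW : NV (range (n + 1)) ((n + 1) / 2 + 1) n p ≤ W)
    (h1 : m + W ≤ NV (range (n + 1)) s₁ n p) (h2 : NV (range (n + 1)) s₂ n p ≤ m)
    (A : Finset (Fin (n + 1))) (hA : IsTop (tree n p) m A) :
    (A.filter (fun x : Fin (n + 1) => (x : ℕ) < K)).card ≤ NV (range K) s₁ n p ∧
    NV (range K) s₂ n p ≤ (A.filter (fun x : Fin (n + 1) => (x : ℕ) < K)).card + W := by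
  obtain ⟨hAm, hAtop⟩ := hA
  -- sets of vertices as subsets of `Fin (n + 1)`
  set H : ℕ → Finset (Fin (n + 1)) := fun s => univ.filter (fun x : Fin (n + 1) => s ≤ S p x n)
    with hH
  have hHc : ∀ s, (H s).card = NV (range (n + 1)) s n p := by
    intro s
    unfold NV
    rw [card_range_fin n (fun v => s ≤ S p v n)]
  set Hv := H ((n + 1) / 2 + 1) with hHv
  have hheavy : ∀ x : Fin (n + 1), x ∉ Hv → psi (tree n p) x = n + 1 - S p x n := by
    intro x hx
    apply psi_eq hp
    rw [hHv, hH, mem_filter] at hx
    push Not at hx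
    have := hx (mem_univ _)
    omega
  have hvs : ∀ s, 2 * s ≤ n + 2 → Hv ⊆ H s := by
    intro s hs x hx
    rw [hHv, hH, mem_filter] at hx
    rw [hH, mem_filter]
    refine ⟨mem_univ _, ?_⟩
    omega
  have hHvc : Hv.card ≤ W := by rw [hHv, hHc]; exact hW
  -- `A ⊆ H s₁`
  have hA1 : A ⊆ H s₁ := by
    intro a ha
    by_contra hna
    have hanv : a ∉ Hv := fun h => hna (hvs s₁ hs1 h)
    have hSa : S p a n < s₁ := by
      by_contra hc
      push Not at hc
      exact hna (by rw [hH, mem_filter]; exact ⟨mem_univ _, hc⟩)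
    have hsub : insert a (H s₁ \ Hv) ⊆ A := by
      intro b hb
      rw [mem_insert] at hb
      rcases hb with rfl | hb
      · exact ha
      · rw [mem_sdiff] at hb
        by_contra hbA
        have := hAtop a ha b hbA
        rw [hheavy a hanv, hheavy b hb.2] at this
        have hb1 := hb.1
        rw [hH, mem_filter] at hb1
        have h3 := S_le p a n
        have h4 := S_le p b n
        omega
    have h3 := card_le_card hsub
    rw [card_insert_of_notMem (by rw [mem_sdiff]; exact fun h => hna h.1), hAm] at h3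
    have h4 := le_card_sdiff Hv (H s₁)
    rw [hHc] at h4
    omega
  -- `H s₂ \ Hv ⊆ A`
  have hA2 : H s₂ \ Hv ⊆ A := by
    intro b hb
    rw [mem_sdiff] at hb
    by_contra hbA
    have hsub : A ⊆ (H s₂).erase b := by
      intro a ha
      rw [mem_erase]
      refine ⟨fun h => hbA (h ▸ ha), ?_⟩
      by_cases hav : a ∈ Hv
      · exact hvs s₂ hs2 hav
      · have := hAtop a ha b hbA
        rw [hheavy a hav, hheavy b hb.2] at this
        have hb1 := hb.1
        rw [hH, mem_filter] at hb1
        have h3 := S_le p a n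
        have h4 := S_le p b n
        rw [hH, mem_filter]
        refine ⟨mem_univ _, ?_⟩
        omega
    have h3 := card_le_card hsub
    rw [card_erase_of_mem hb.1, hHc, hAm] at h3
    have : 0 < (H s₂).card := card_pos.2 ⟨b, hb.1⟩
    rw [hHc] at this
    omega
  have hcount : ∀ s, ((H s).filter (fun x : Fin (n + 1) => (x : ℕ) < K)).card = NV (range K) s n p := by
    intro s
    unfold NV
    have e : (range K).filter (fun v => s ≤ S p v n) =
        ((H s).filter (fun x : Fin (n + 1) => (x : ℕ) < K)).map Fin.valEmbedding := by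
      ext v
      rw [mem_map, mem_filter, mem_range]
      constructor
      · rintro ⟨hv, hs⟩
        refine ⟨⟨v, by omega⟩, ?_, rfl⟩
        rw [mem_filter, hH, mem_filter]
        exact ⟨⟨mem_univ _, hs⟩, hv⟩
      · rintro ⟨x, hx, rfl⟩
        rw [mem_filter, hH, mem_filter] at hx
        exact ⟨hx.2, hx.1.2⟩
    rw [e, card_map]
  constructor
  · rw [← hcount]
    exact card_le_card (filter_subset_filter _ hA1)
  · rw [← hcount]
    have hsub : (H s₂).filter (fun x : Fin (n + 1) => (x : ℕ) < K) ⊆
        (A.filter (fun x : Fin (n + 1) => (x : ℕ) < K)) ∪ Hv := by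
      intro x hx
      rw [mem_filter] at hx
      rw [mem_union, mem_filter]
      by_cases hxv : x ∈ Hv
      · exact Or.inr hxv
      · exact Or.inl ⟨hA2 (mem_sdiff.2 ⟨hx.1, hxv⟩), hx.2⟩
    have h3 := (card_le_card hsub).trans (card_union_le _ _)
    omega

end Pool.Agent.X139.UT
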