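import Pool.Agent.X139.UT.Pair
import Pool.Agent.X139.UT.Graph

/-!
# Second moments of the numbers of large subtrees
-/

set_option autoImplicit false

namespace Pool.Agent.X139.UT

open Finset
open scoped Classical

/-- indicator of a large subtree -/
noncomputable def I (s n v : ℕ) (p : ℕ → ℕ) : ℝ := if s ≤ S p v n then 1 else 0

lemma E_I (s n v : ℕ) : E n (I s n v) = P n v s := rfl

lemma NV_eq (V : Finset ℕ) (s n : ℕ) (p : ℕ → ℕ) : (NV V s n p : ℝ) = ∑ v ∈ V, I s n v p := by
  unfold NV I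
  rw [card_filter]
  push_cast
  rfl

lemma E_NV (V : Finset ℕ) (s n : ℕ) :
    E n (fun p => (NV V s n p : ℝ)) = ∑ v ∈ V, P n v s := by
  simp only [NV_eq]
  rw [E_sum]
  rfl

/-- the harmonic sum -/
noncomputable def hs (v : ℕ) : ℝ := ∑ u ∈ range v, 1 / ((u : ℝ) + 1)

lemma hs_le (v m : ℕ) (hm : 1 ≤ m) : hs v ≤ v / m + m := by
  unfold hs
  have hm0 : (0 : ℝ) < m := by exact_mod_cast hm
  have h1 : ∀ u ∈ range v, 1 / ((u : ℝ) + 1) ≤ 1 / m + if u < m then 1 else 0 := by
    intro u _
    have hu : (0 : ℝ) < (u : ℝ) + 1 := by positivity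
    split_ifs with h
    · have : 1 / ((u : ℝ) + 1) ≤ 1 := by
        rw [div_le_one hu]
        have : (0 : ℝ) ≤ u := Nat.cast_nonneg u
        linarith
      have : (0 : ℝ) < 1 / m := by positivity
      linarith
    · push Not at h
      have : (m : ℝ) ≤ u := by exact_mod_cast h
      rw [add_zero]
      exact one_div_le_one_div_of_le hm0 (by linarith)
  refine (sum_le_sum h1).trans ?_
  rw [sum_add_distrib, sum_const, card_range, nsmul_eq_mul]
  have h2 : ∑ u ∈ range v, (if u < m then (1 : ℝ) else 0) ≤ m := by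
    rw [← sum_filter, sum_const, nsmul_eq_mul, mul_one]
    have : ((range v).filter (fun u => u < m)).card ≤ m := by
      calc ((range v).filter (fun u => u < m)).card ≤ (range m).card := by
            apply card_le_card
            intro u hu
            rw [mem_filter] at hu
            rw [mem_range]
            exact hu.2
        _ = m := card_range m
    exact_mod_cast this
  have h3 : (v : ℝ) * (1 / m) = v / m := by ring
  linarith

lemma pair_any (s : ℕ) {n u v : ℕ} (hu : u ≤ n) (hv : v ≤ n) :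
    E n (fun p => I s n u p * I s n v p) ≤
      P n u s * P n v s + ((if u = v then P n v s else 0) +
        ((if u < v then 1 / ((u : ℝ) + 1) * P n v s else 0) +
         (if v < u then 1 / ((v : ℝ) + 1) * P n u s else 0))) := by
  have hPu := P_nonneg n u s
  have hPv := P_nonneg n v s
  rcases lt_trichotomy u v with h | h | h
  · rw [if_neg h.ne, if_pos h, if_neg (by omega)]
    have := pair_bound s h hv
    unfold I
    linarith
  · subst h
    rw [if_pos rfl, if_neg (lt_irrefl _)]
    have : E n (fun p => I s n u p * I s n u p) = P n u s := by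
      rw [← E_I]
      apply E_congr
      intro p _
      unfold I
      split_ifs <;> norm_num
    rw [this]
    nlinarith [mul_nonneg hPu hPu]
  · rw [if_neg h.ne', if_neg (by omega), if_pos h]
    have h1 := pair_bound s h hu
    have h2 : E n (fun p => I s n u p * I s n v p) =
        E n (fun p => (if s ≤ S p v n then (1 : ℝ) else 0) * (if s ≤ S p u n then 1 else 0)) := by
      apply E_congr
      intro p _
      unfold I
      ring
    rw [h2]
    linarith

/-- variance bound -/
lemma var_bound (V : Finset ℕ) (s n m : ℕ) (hm : 1 ≤ m) (hV : V ⊆ range (n + 1)) :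
    E n (fun p => ((NV V s n p : ℝ) - ∑ v ∈ V, P n v s) ^ 2) ≤
      ∑ v ∈ V, P n v s + 2 * ∑ v ∈ V, ((v : ℝ) / m + m) * P n v s := by
  set μ := ∑ v ∈ V, P n v s with hμ
  have h1 : (fun p : ℕ → ℕ => ((NV V s n p : ℝ) - μ) ^ 2) =
      fun p => (∑ u ∈ V, ∑ v ∈ V, I s n u p * I s n v p) +
        ((-(2 * μ)) * (NV V s n p : ℝ) + μ ^ 2 * 1) := by
    funext p
    rw [← sum_mul_sum, NV_eq]
    ring
  rw [h1, E_add, E_add, E_mul, E_mul, E_one, E_NV, ← hμ, E_sum]
  have h2 : ∑ u ∈ V, E n (fun p => ∑ v ∈ V, I s n u p * I s n v p) ≤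
      ∑ u ∈ V, ∑ v ∈ V, (P n u s * P n v s + ((if u = v then P n v s else 0) +
        ((if u < v then 1 / ((u : ℝ) + 1) * P n v s else 0) +
         (if v < u then 1 / ((v : ℝ) + 1) * P n u s else 0)))) := by
    apply sum_le_sum
    intro u hu
    rw [E_sum]
    apply sum_le_sum
    intro v hv
    have hu' := hV hu
    have hv' := hV hv
    rw [mem_range] at hu' hv'
    exact pair_any s (by omega) (by omega)
  have key : ∀ v : ℕ, ∑ u ∈ V, (if u < v then 1 / ((u : ℝ) + 1) * P n v s else 0) ≤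
      ((v : ℝ) / m + m) * P n v s := by
    intro v
    have h3 : ∑ u ∈ V, (if u < v then 1 / ((u : ℝ) + 1) * P n v s else 0) ≤
        ∑ u ∈ range v, 1 / ((u : ℝ) + 1) * P n v s := by
      rw [← sum_filter]
      apply sum_le_sum_of_subset_of_nonneg
      · intro u hu
        rw [mem_filter] at hu
        rw [mem_range]
        exact hu.2
      · intro u _ _
        exact mul_nonneg (by positivity) (P_nonneg n v s)
    refine h3.trans ?_
    rw [← sum_mul]
    exact mul_le_mul_of_nonneg_right (hs_le v m hm) (P_nonneg n v s)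
  have h3 : ∑ u ∈ V, ∑ v ∈ V, (P n u s * P n v s + ((if u = v then P n v s else 0) +
        ((if u < v then 1 / ((u : ℝ) + 1) * P n v s else 0) +
         (if v < u then 1 / ((v : ℝ) + 1) * P n u s else 0)))) ≤
      μ ^ 2 + μ + 2 * ∑ v ∈ V, ((v : ℝ) / m + m) * P n v s := by
    simp only [sum_add_distrib]
    have a1 : ∑ u ∈ V, ∑ v ∈ V, P n u s * P n v s = μ ^ 2 := by
      rw [← sum_mul_sum, ← hμ]
      ring
    have a2 : ∑ u ∈ V, ∑ v ∈ V, (if u = v then P n v s else 0) = μ := by
      rw [hμ]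
      apply sum_congr rfl
      intro u hu
      rw [sum_ite_eq, if_pos hu]
    have a3 : ∑ u ∈ V, ∑ v ∈ V, (if u < v then 1 / ((u : ℝ) + 1) * P n v s else 0) ≤
        ∑ v ∈ V, ((v : ℝ) / m + m) * P n v s := by
      rw [sum_comm]
      exact sum_le_sum fun v _ => key v
    have a4 : ∑ u ∈ V, ∑ v ∈ V, (if v < u then 1 / ((v : ℝ) + 1) * P n u s else 0) ≤
        ∑ v ∈ V, ((v : ℝ) / m + m) * P n v s :=
      sum_le_sum fun u _ => key u
    linarith
  nlinarith

lemma geom_le {q : ℝ} (hq : 0 ≤ q) (hq1 : q < 1) (V : Finset ℕ) :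
    ∑ v ∈ V, q ^ v ≤ 1 / (1 - q) := by
  rw [one_div]
  have := hasSum_geometric_of_lt_one hq hq1
  exact sum_le_hasSum V (fun _ _ => pow_nonneg hq _) this

lemma geom_le' {q : ℝ} (hq : 0 ≤ q) (hq1 : q < 1) (V : Finset ℕ) :
    ∑ v ∈ V, (v : ℝ) * q ^ v ≤ (1 / (1 - q)) ^ 2 := by
  have h := hasSum_coe_mul_geometric_of_norm_lt_one (r := q) (by
    rw [Real.norm_eq_abs, abs_of_nonneg hq]; exact hq1)
  have h1 := sum_le_hasSum V (fun v _ => by positivity) h
  refine h1.trans ?_
  rw [one_div, inv_pow, ← one_div]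
  apply div_le_div_of_nonneg_right hq1.le
  positivity

/-- Markov's inequality -/
lemma markov {n : ℕ} {Φ : (ℕ → ℕ) → ℝ} (hΦ : ∀ p, 0 ≤ Φ p) {τ : ℝ} (hτ : 0 < τ) (Q : (ℕ → ℕ) → Prop)
    (h : ∀ p, Q p → τ ≤ Φ p) : E n (fun p => if Q p then 1 else 0) ≤ E n Φ / τ := by
  have h1 : E n (fun p => if Q p then 1 else 0) ≤ E n (fun p => 1 / τ * Φ p) := by
    apply E_mono
    intro p _
    split_ifs with hQ
    · have := h p hQ
      rw [one_div, ← div_eq_inv_mul, le_div_iff₀ hτ]
      linarith
    · exact mul_nonneg (by positivity) (hΦ p)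
  rw [E_mul] at h1
  refine h1.trans (le_of_eq ?_)
  ring

/-- Chebyshev's inequality -/
lemma cheb (V : Finset ℕ) (s n m : ℕ) (hm : 1 ≤ m) (hV : V ⊆ range (n + 1)) (hs1 : 2 ≤ s)
    (hsn : s ≤ n + 1) {τ : ℝ} (hτ : 0 < τ) (X : ℝ) (hX : (n : ℝ) / ((s : ℝ) - 1) ≤ X) :
    E n (fun p => if τ < |(NV V s n p : ℝ) - ∑ v ∈ V, P n v s| then 1 else 0) ≤
      (X + 2 * (X ^ 2 / m + m * X)) / τ ^ 2 := by
  have hn : 1 ≤ n := by omega
  have hn0 : (0 : ℝ) < n := by exact_mod_cast hn
  have hs0 : (0 : ℝ) < (s : ℝ) - 1 := by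
    have : (2 : ℝ) ≤ s := by exact_mod_cast hs1
    linarith
  have hm0 : (0 : ℝ) < m := by exact_mod_cast hm
  refine (markov (fun p => sq_nonneg ((NV V s n p : ℝ) - ∑ v ∈ V, P n v s))
    (show 0 < τ ^ 2 by positivity) _ (fun p hp => ?_)).trans ?_
  · rw [← sq_abs ((NV V s n p : ℝ) - ∑ v ∈ V, P n v s)]
    exact pow_le_pow_left₀ hτ.le hp.le 2
  · apply div_le_div_of_nonneg_right _ (by positivity)
    refine (var_bound V s n m hm hV).trans ?_
    set q : ℝ := 1 - ((s : ℝ) - 1) / n with hq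
    have hsn' : (s : ℝ) - 1 ≤ n := by
      have : (s : ℝ) ≤ n + 1 := by exact_mod_cast hsn
      linarith
    have hq0 : 0 ≤ q := by
      rw [hq, sub_nonneg, div_le_one hn0]
      exact hsn'
    have hq1 : q < 1 := by
      rw [hq]
      have : 0 < ((s : ℝ) - 1) / n := by positivity
      linarith
    have hY : 1 / (1 - q) = n / ((s : ℝ) - 1) := by
      rw [hq, sub_sub_cancel, one_div_div]
    set Y := 1 / (1 - q) with hYd
    have hY0 : 0 < Y := by
      rw [hYd]
      exact div_pos one_pos (by linarith)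
    have hYX : Y ≤ X := by rw [hY]; exact hX
    have hP : ∀ v ∈ V, P n v s ≤ q ^ v := by
      intro v hv
      have hv' := hV hv
      rw [mem_range] at hv'
      exact P_upper (by omega) (by omega) hsn hn
    have g1 : ∑ v ∈ V, P n v s ≤ Y := (sum_le_sum hP).trans (geom_le hq0 hq1 V)
    have g2 : ∑ v ∈ V, ((v : ℝ) / m + m) * P n v s ≤ Y ^ 2 / m + m * Y := by
      calc ∑ v ∈ V, ((v : ℝ) / m + m) * P n v s ≤ ∑ v ∈ V, ((v : ℝ) / m + m) * q ^ v := by
            apply sum_le_sum
            intro v hv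
            exact mul_le_mul_of_nonneg_left (hP v hv) (by positivity)
        _ = (1 / m) * ∑ v ∈ V, (v : ℝ) * q ^ v + m * ∑ v ∈ V, q ^ v := by
            rw [mul_sum, mul_sum, ← sum_add_distrib]
            apply sum_congr rfl
            intro v _
            ring
        _ ≤ (1 / m) * Y ^ 2 + m * Y := by
            apply add_le_add
            · exact mul_le_mul_of_nonneg_left (geom_le' hq0 hq1 V) (by positivity)
            · exact mul_le_mul_of_nonneg_left (geom_le hq0 hq1 V) hm0.le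
        _ = _ := by ring
    have g3 : Y ^ 2 / m + m * Y ≤ X ^ 2 / m + m * X := by
      apply add_le_add
      · apply div_le_div_of_nonneg_right _ hm0.le
        exact pow_le_pow_left₀ hY0.le hYX 2
      · exact mul_le_mul_of_nonneg_left hYX hm0.le
    linarith

/-- few heavy vertices -/
lemma E_heavy (n : ℕ) (hn : 1 ≤ n) :
    E n (fun p => (NV (range (n + 1)) ((n + 1) / 2 + 1) n p : ℝ)) ≤ 2 := by
  rw [E_NV]
  have hn0 : (0 : ℝ) < n := by exact_mod_cast hn
  have h1 : ∀ v ∈ range (n + 1), P n v ((n + 1) / 2 + 1) ≤ (1 / 2 : ℝ) ^ v := by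
    intro v hv
    rw [mem_range] at hv
    refine (P_upper (by omega) (by omega) (by omega) hn).trans ?_
    have h2 : (n : ℝ) ≤ 2 * (((n + 1) / 2 : ℕ) : ℝ) := by
      have : n ≤ 2 * ((n + 1) / 2) := by omega
      exact_mod_cast this
    have h3 : (((n + 1) / 2 : ℕ) : ℝ) ≤ n := by
      have : (n + 1) / 2 ≤ n := by omega
      exact_mod_cast this
    apply pow_le_pow_left₀
    · push_cast
      rw [add_sub_cancel_right, sub_nonneg, div_le_one hn0]
      exact h3
    · push_cast
      rw [add_sub_cancel_right]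
      have : (1 : ℝ) / 2 ≤ (((n + 1) / 2 : ℕ) : ℝ) / n := by
        rw [div_le_div_iff₀ (by norm_num) hn0]
        linarith
      linarith
  refine (sum_le_sum h1).trans ?_
  refine (geom_le (by norm_num) (by norm_num) _).trans ?_
  norm_num

end Pool.Agent.X139.UT
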