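import Pool.Agent.X139.UT.Tree

/-!
# Pairs of subtree sizes, explicit law of one size
-/

set_option autoImplicit false

namespace Pool.Agent.X139.UT

open Finset
open scoped Classical

/-- indicator that `v` is not a descendant of `u` -/
noncomputable def J (u v : ℕ) (p : ℕ → ℕ) : ℝ := if desc p u v then 0 else 1

lemma J_update {u v n : ℕ} (hv : v ≤ n) {p : ℕ → ℕ} (hp : p ∈ PF n) (j : ℕ) :
    J u v (Function.update p (n + 1) j) = J u v p := by
  unfold J
  simp only [desc_update (dec_of_mem hp) hv j u]

/-- negative correlation of the sizes of two disjoint subtrees -/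
lemma pair_disj (s r : ℕ) {m u v : ℕ} (huv : u < v) (hv : v ≤ m) :
    E (m + r) (fun p => J u v p * ((if s ≤ S p u (m + r) then 1 else 0) *
      (if s ≤ S p v (m + r) then 1 else 0))) ≤
      E m (fun p => J u v p * (FF s r m (S p u m) * FF s r m (S p v m))) := by
  induction r generalizing m with
  | zero => exact le_rfl
  | succ r ih =>
    have h1 := ih (m := m + 1) (by omega)
    have e : m + (r + 1) = m + 1 + r := by ring
    rw [e]
    refine h1.trans ?_
    rw [E_succ]
    apply E_mono
    intro p hp
    have hd := dec_of_mem hp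
    have hm : (0 : ℝ) < m + 1 := by positivity
    have h2 : ∀ j ∈ range (m + 1),
        J u v (Function.update p (m + 1) j) *
          (FF s r (m + 1) (S (Function.update p (m + 1) j) u (m + 1)) *
            FF s r (m + 1) (S (Function.update p (m + 1) j) v (m + 1))) =
        J u v p * (FF s r (m + 1) (S p u m) * FF s r (m + 1) (S p v m) +
          (if desc p u j then (1 : ℝ) else 0) *
            ((FF s r (m + 1) (S p u m + 1) - FF s r (m + 1) (S p u m)) *
              FF s r (m + 1) (S p v m)) +
          (if desc p v j then (1 : ℝ) else 0) *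
            ((FF s r (m + 1) (S p v m + 1) - FF s r (m + 1) (S p v m)) *
              FF s r (m + 1) (S p u m))) := by
      intro j hj
      rw [mem_range] at hj
      rw [J_update hv hp, S_succ hd (by omega) (by omega), S_succ hd (by omega) hv]
      by_cases hJ : desc p u v
      · unfold J
        rw [if_pos hJ]
        ring
      · by_cases hu : desc p u j
        · by_cases hvj : desc p v j
          · exact absurd (desc_chain hd huv hu hvj) hJ
          · rw [if_pos hu, if_neg hvj, if_pos hu, if_neg hvj]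
            simp only [add_zero]
            ring
        · by_cases hvj : desc p v j
          · rw [if_neg hu, if_pos hvj, if_neg hu, if_pos hvj]
            simp only [add_zero]
            ring
          · rw [if_neg hu, if_neg hvj, if_neg hu, if_neg hvj]
            simp only [add_zero]
            ring
    rw [sum_congr rfl h2, ← mul_sum, mul_div_assoc]
    have hJ0 : 0 ≤ J u v p := by unfold J; split_ifs <;> norm_num
    apply mul_le_mul_of_nonneg_left _ hJ0
    have s1 : ∀ (w : ℕ) (C : ℝ), ∑ j ∈ range (m + 1), (if desc p w j then (1 : ℝ) else 0) * C =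
        (S p w m : ℝ) * C := by
      intro w C
      rw [← sum_mul, sum_desc]
    rw [sum_add_distrib, sum_add_distrib, s1, s1, sum_const, card_range, nsmul_eq_mul]
    show _ ≤ UU m (FF s r (m + 1)) (S p u m) * UU m (FF s r (m + 1)) (S p v m)
    unfold UU
    obtain ⟨a0, _, a2⟩ := FF_range s r (m + 1) (S p u m) ((S_le p u m).trans (by omega))
    obtain ⟨b0, _, b2⟩ := FF_range s r (m + 1) (S p v m) ((S_le p v m).trans (by omega))
    set x := FF s r (m + 1) (S p u m)
    set x' := FF s r (m + 1) (S p u m + 1)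
    set y := FF s r (m + 1) (S p v m)
    set y' := FF s r (m + 1) (S p v m + 1)
    set a : ℝ := (S p u m : ℝ) with ha
    set b : ℝ := (S p v m : ℝ) with hb
    have ha0 : 0 ≤ a := Nat.cast_nonneg _
    have hb0 : 0 ≤ b := Nat.cast_nonneg _
    have h3 : (x + a * (x' - x) / (m + 1)) * (y + b * (y' - y) / (m + 1)) =
        (((m + 1 : ℕ) : ℝ) * (x * y) + a * ((x' - x) * y) + b * ((y' - y) * x)) / (m + 1) +
        (a * (x' - x) / (m + 1)) * (b * (y' - y) / (m + 1)) := by
      push_cast
      field_simp
      ring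
    rw [h3]
    have h4 : 0 ≤ (a * (x' - x) / (m + 1)) * (b * (y' - y) / (m + 1)) := by
      apply mul_nonneg
      · exact div_nonneg (mul_nonneg ha0 (by linarith)) hm.le
      · exact div_nonneg (mul_nonneg hb0 (by linarith)) hm.le
    linarith

/-- the pair bound -/
lemma pair_bound (s : ℕ) {n u v : ℕ} (huv : u < v) (hv : v ≤ n) :
    E n (fun p => (if s ≤ S p u n then (1 : ℝ) else 0) * (if s ≤ S p v n then 1 else 0)) ≤
      P n u s * P n v s + 1 / (u + 1) * P n v s := by
  obtain ⟨r, rfl⟩ : ∃ r, n = v + r := ⟨n - v, by omega⟩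
  have h1 : E (v + r) (fun p => (if s ≤ S p u (v + r) then (1 : ℝ) else 0) *
      (if s ≤ S p v (v + r) then 1 else 0)) ≤
      E (v + r) (fun p => J u v p * ((if s ≤ S p u (v + r) then 1 else 0) *
        (if s ≤ S p v (v + r) then 1 else 0)) +
        (if desc p u v then (1 : ℝ) else 0) * (if s ≤ S p v (v + r) then 1 else 0)) := by
    apply E_mono
    intro p _
    unfold J
    split_ifs <;> norm_num
  refine h1.trans ?_
  rw [E_add]
  have h2 := pair_disj s r huv (le_refl v)
  have h3 := E_run s r (m := v) (v := v) le_rfl (inv_desc u v)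
  rw [h3]
  have e1 : E v (fun p => (if desc p u v then (1 : ℝ) else 0) * FF s r v (S p v v)) =
      1 / (u + 1) * P (v + r) v s := by
    rw [P_eq' s r v, ← E_desc huv, mul_comm, ← E_mul]
    apply E_congr
    intro p hp
    rw [S_self (dec_of_mem hp)]
    ring
  rw [e1]
  have h4 : E v (fun p => J u v p * (FF s r v (S p u v) * FF s r v (S p v v))) ≤
      P (v + r) u s * P (v + r) v s := by
    rw [P_eq s r v u huv.le, P_eq' s r v, mul_comm, ← E_mul]
    apply E_mono
    intro p hp
    rw [S_self (dec_of_mem hp)]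
    obtain ⟨a0, _, _⟩ := FF_range s r v (S p u v) (S_le p u v)
    obtain ⟨b0, _, _⟩ := FF_range s r v 1 (by omega)
    have hJ : J u v p ≤ 1 := by unfold J; split_ifs <;> norm_num
    have hab : 0 ≤ FF s r v (S p u v) * FF s r v 1 := mul_nonneg a0 b0
    calc J u v p * (FF s r v (S p u v) * FF s r v 1)
        ≤ 1 * (FF s r v (S p u v) * FF s r v 1) := mul_le_mul_of_nonneg_right hJ hab
      _ = _ := by ring
  linarith

/-! ### the explicit law of one size -/

lemma P_self {v s : ℕ} : P v v s = if s ≤ 1 then 1 else 0 := by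
  unfold P
  have h : E v (fun p => if s ≤ S p v v then (1 : ℝ) else 0) =
      E v (fun _ => (if s ≤ 1 then (1 : ℝ) else 0) * 1) := by
    apply E_congr
    intro p hp
    rw [S_self (dec_of_mem hp), mul_one]
  rw [h, E_mul, E_one, mul_one]

lemma P_rec {n v k : ℕ} (hv : v ≤ n) :
    P (n + 1) v (k + 1) = P n v (k + 1) + k / (n + 1) * (P n v k - P n v (k + 1)) := by
  have h := E_step (n := n) (m := n) (v := v) le_rfl hv (inv_one n)
    (fun a => if k + 1 ≤ a then (1 : ℝ) else 0)
  simp only [one_mul] at h
  unfold P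
  rw [h]
  have h2 : E n (fun p => UU n (fun a => if k + 1 ≤ a then (1 : ℝ) else 0) (S p v n)) =
      E n (fun p => (if k + 1 ≤ S p v n then (1 : ℝ) else 0) +
        ((k / (n + 1) : ℝ) * (if k ≤ S p v n then (1 : ℝ) else 0) +
          (-(k / (n + 1) : ℝ)) * (if k + 1 ≤ S p v n then (1 : ℝ) else 0))) := by
    apply E_congr
    intro p _
    unfold UU
    by_cases h1 : k + 1 ≤ S p v n
    · have h2 : k + 1 ≤ S p v n + 1 := by omega
      have h3 : k ≤ S p v n := by omega
      simp only [if_pos h1, if_pos h2, if_pos h3]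
      ring
    · by_cases h2 : k ≤ S p v n
      · have h3 : k + 1 ≤ S p v n + 1 := by omega
        have h4 : S p v n = k := by omega
        simp only [if_neg h1, if_pos h2, if_pos h3]
        rw [h4]
        ring
      · have h3 : ¬ k + 1 ≤ S p v n + 1 := by omega
        simp only [if_neg h1, if_neg h2, if_neg h3]
        ring
  rw [h2, E_add, E_add, E_mul, E_mul]
  ring

lemma P_formula {v : ℕ} (hv : 1 ≤ v) : ∀ n, v ≤ n → ∀ k, 1 ≤ k →
    P n v k = ((n + 1 - k).choose v : ℝ) / (n.choose v : ℝ) := by
  intro n hn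
  induction n, hn using Nat.le_induction with
  | base =>
    intro k hk
    rw [P_self]
    by_cases h : k = 1
    · subst h
      simp
    · rw [if_neg (by omega), Nat.choose_eq_zero_of_lt (by omega)]
      simp
  | succ n hn ih =>
    intro k hk
    obtain ⟨k, rfl⟩ : ∃ k', k = k' + 1 := ⟨k - 1, by omega⟩
    rw [P_rec hn, ih (k + 1) (by omega)]
    have hc : (0 : ℝ) < (n.choose v : ℝ) := by exact_mod_cast Nat.choose_pos hn
    have hc' : (0 : ℝ) < ((n + 1).choose v : ℝ) := by exact_mod_cast Nat.choose_pos (by omega)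
    have hn1 : (0 : ℝ) < (n : ℝ) + 1 := by positivity
    -- `C(n+1,v) (n+1-v) = C(n,v) (n+1)`
    have e1 : ((n + 1).choose v : ℝ) * (n + 1 - v) = (n.choose v : ℝ) * (n + 1) := by
      have h := Nat.choose_mul_succ_eq n v
      have h2 : ((n.choose v * (n + 1) : ℕ) : ℝ) = (((n + 1).choose v * (n + 1 - v) : ℕ) : ℝ) := by
        exact_mod_cast h
      rw [Nat.cast_mul, Nat.cast_mul, Nat.cast_sub (by omega)] at h2
      push_cast at h2
      linarith
    by_cases hk0 : k = 0
    · subst hk0
      simp only [Nat.cast_zero, zero_div, zero_mul, add_zero, zero_add, Nat.add_sub_cancel]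
      rw [div_self hc.ne', div_self hc'.ne']
    · rw [ih k (by omega)]
      have e2 : n + 1 - (k + 1) = n - k := by omega
      have e3 : n + 1 + 1 - (k + 1) = n + 1 - k := by omega
      rw [e2, e3]
      by_cases hkn : k ≤ n
      · have e4 : n + 1 - k = (n - k) + 1 := by omega
        rw [e4]
        set M := n - k with hM
        have hMk : (n : ℝ) = M + k := by
          have : n = M + k := by omega
          exact_mod_cast this
        -- Pascal
        obtain ⟨w, rfl⟩ : ∃ w, v = w + 1 := ⟨v - 1, by omega⟩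
        have e5 : ((M + 1).choose (w + 1) : ℝ) = M.choose w + M.choose (w + 1) := by
          exact_mod_cast Nat.choose_succ_succ M w
        have e6 : (M.choose (w + 1) : ℝ) * (w + 1) = (M.choose w : ℝ) * (M - w) := by
          by_cases hw : w ≤ M
          · have h := Nat.choose_succ_right_eq M w
            have h2 : ((M.choose (w + 1) * (w + 1) : ℕ) : ℝ) = ((M.choose w * (M - w) : ℕ) : ℝ) := by
              exact_mod_cast h
            rw [Nat.cast_mul, Nat.cast_mul, Nat.cast_sub hw] at h2
            push_cast at h2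
            exact h2
          · rw [Nat.choose_eq_zero_of_lt (by omega : M < w), Nat.choose_eq_zero_of_lt (by omega)]
            simp
        rw [e5]
        push_cast at e1
        have e7 : ((n + 1).choose (w + 1) : ℝ) = (n.choose (w + 1) : ℝ) * (n + 1) / (n + 1 - (w + 1)) := by
          have hne : (n : ℝ) + 1 - (w + 1) ≠ 0 := by
            have : (w : ℝ) + 1 ≤ n := by exact_mod_cast hn
            intro h0
            linarith
          rw [eq_div_iff hne]
          linarith
        have hne : (n : ℝ) + 1 - (w + 1) ≠ 0 := by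
          have : (w : ℝ) + 1 ≤ n := by exact_mod_cast hn
          intro h0
          linarith
        rw [e7]
        field_simp
        have e8 : (k : ℝ) = n - M := by linarith
        rw [e8]
        linear_combination (1 : ℝ) * e6
      · have e4 : n - k = 0 := by omega
        have e5 : n + 1 - k = 0 := by omega
        rw [e4, e5, Nat.choose_eq_zero_of_lt (by omega : 0 < v)]
        simp

lemma choose_upper {M n : ℕ} (h : M ≤ n) (v : ℕ) :
    (M.choose v : ℝ) * (n : ℝ) ^ v ≤ (n.choose v : ℝ) * (M : ℝ) ^ v := by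
  have h1 : ∀ v, (M.descFactorial v : ℝ) * (n : ℝ) ^ v ≤ (n.descFactorial v : ℝ) * (M : ℝ) ^ v := by
    intro v
    induction v with
    | zero => simp
    | succ v ih =>
      rw [Nat.descFactorial_succ, Nat.descFactorial_succ, pow_succ, pow_succ]
      have h2 : (((M - v) * n : ℕ) : ℝ) ≤ (((n - v) * M : ℕ) : ℝ) := by
        have : (M - v) * n ≤ (n - v) * M := by
          by_cases hv : v ≤ M
          · obtain ⟨a, rfl⟩ : ∃ a, M = v + a := ⟨M - v, by omega⟩
            obtain ⟨b, rfl⟩ : ∃ b, n = v + b := ⟨n - v, by omega⟩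
            have hab : a ≤ b := by omega
            rw [Nat.add_sub_cancel_left, Nat.add_sub_cancel_left]
            nlinarith [Nat.mul_le_mul_right v hab]
          · rw [Nat.sub_eq_zero_of_le (by omega), zero_mul]
            exact Nat.zero_le _
        exact_mod_cast this
      rw [Nat.cast_mul, Nat.cast_mul] at h2
      have h3 : (0 : ℝ) ≤ (M.descFactorial v : ℝ) * (n : ℝ) ^ v := by positivity
      have h4 : (0 : ℝ) ≤ ((n - v : ℕ) : ℝ) * (M : ℝ) := by positivity
      have h5 : (0 : ℝ) ≤ ((M - v : ℕ) : ℝ) * (n : ℝ) := by positivity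
      calc (((M - v) * M.descFactorial v : ℕ) : ℝ) * ((n : ℝ) ^ v * n)
          = (((M - v : ℕ) : ℝ) * n) * ((M.descFactorial v : ℝ) * (n : ℝ) ^ v) := by
            push_cast; ring
        _ ≤ (((n - v : ℕ) : ℝ) * M) * ((n.descFactorial v : ℝ) * (M : ℝ) ^ v) :=
            mul_le_mul h2 ih h3 h4
        _ = (((n - v) * n.descFactorial v : ℕ) : ℝ) * ((M : ℝ) ^ v * M) := by push_cast; ring
  have h2 := h1 v
  rw [Nat.descFactorial_eq_factorial_mul_choose, Nat.descFactorial_eq_factorial_mul_choose] at h2
  push_cast at h2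
  have hf : (0 : ℝ) < (v.factorial : ℝ) := by exact_mod_cast v.factorial_pos
  have h3 : (v.factorial : ℝ) * ((M.choose v : ℝ) * (n : ℝ) ^ v) ≤
      (v.factorial : ℝ) * ((n.choose v : ℝ) * (M : ℝ) ^ v) := by
    calc _ = (v.factorial : ℝ) * (M.choose v) * (n : ℝ) ^ v := by ring
      _ ≤ _ := h2
      _ = _ := by ring
  exact le_of_mul_le_mul_left h3 hf

/-- upper bound for one size -/
lemma P_upper {n v k : ℕ} (hv : v ≤ n) (hk : 1 ≤ k) (hkn : k ≤ n + 1) (hn : 1 ≤ n) :
    P n v k ≤ (1 - ((k : ℝ) - 1) / n) ^ v := by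
  by_cases hv0 : v = 0
  · subst hv0
    rw [pow_zero]
    have : P n 0 k ≤ E n (fun _ => 1) := by
      apply E_mono
      intro p _
      split_ifs <;> norm_num
    rwa [E_one] at this
  · rw [P_formula (by omega) n hv k hk]
    have hc : (0 : ℝ) < (n.choose v : ℝ) := by exact_mod_cast Nat.choose_pos hv
    have hn0 : (0 : ℝ) < n := by exact_mod_cast hn
    rw [div_le_iff₀ hc]
    have h1 := choose_upper (M := n + 1 - k) (n := n) (by omega) v
    have e : (((n + 1 - k : ℕ) : ℝ)) = n * (1 - ((k : ℝ) - 1) / n) := by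
      rw [Nat.cast_sub hkn]
      push_cast
      field_simp
      ring
    rw [e, mul_pow] at h1
    have hp : (0 : ℝ) < (n : ℝ) ^ v := by positivity
    have h2 : (n : ℝ) ^ v * ((n + 1 - k).choose v : ℝ) ≤
        (n : ℝ) ^ v * ((1 - ((k : ℝ) - 1) / n) ^ v * (n.choose v : ℝ)) := by
      calc _ = ((n + 1 - k).choose v : ℝ) * (n : ℝ) ^ v := by ring
        _ ≤ _ := h1
        _ = _ := by ring
    exact le_of_mul_le_mul_left h2 hp

/-- lower bound for one size -/
lemma P_lower {n v k : ℕ} (hv : v ≤ n) (hk : 1 ≤ k) (hkn : k + v ≤ n + 1) (hn : 1 ≤ n) :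
    (1 - ((k : ℝ) + v - 2) / n) ^ v ≤ P n v k ∨ v = 0 := by
  by_cases hv0 : v = 0
  · exact Or.inr hv0
  · left
    rw [P_formula (by omega) n hv k hk]
    have hc : (0 : ℝ) < (n.choose v : ℝ) := by exact_mod_cast Nat.choose_pos hv
    have hn0 : (0 : ℝ) < n := by exact_mod_cast hn
    rw [le_div_iff₀ hc]
    have hf : (0 : ℝ) < (v.factorial : ℝ) := by exact_mod_cast v.factorial_pos
    have h1 : (((n + 1 - k + 1 - v) ^ v : ℕ) : ℝ) ≤ ((n + 1 - k).descFactorial v : ℝ) := by
      exact_mod_cast Nat.pow_sub_le_descFactorial (n + 1 - k) v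
    have h2 : (n.descFactorial v : ℝ) ≤ (n : ℝ) ^ v := by
      exact_mod_cast Nat.descFactorial_le_pow n v
    rw [Nat.descFactorial_eq_factorial_mul_choose] at h1 h2
    push_cast at h1 h2
    have e : (((n + 1 - k + 1 - v : ℕ) : ℝ)) = n * (1 - ((k : ℝ) + v - 2) / n) := by
      rw [Nat.cast_sub (by omega), Nat.cast_add, Nat.cast_sub (by omega)]
      push_cast
      field_simp
      ring
    rw [e, mul_pow] at h1
    have hy : 0 ≤ (1 - ((k : ℝ) + v - 2) / n) ^ v := by
      apply pow_nonneg
      have : (((n + 1 - k + 1 - v : ℕ) : ℝ)) / n = 1 - ((k : ℝ) + v - 2) / n := by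
        rw [e]; field_simp
      rw [← this]
      positivity
    have h3 : (1 - ((k : ℝ) + v - 2) / n) ^ v * ((v.factorial : ℝ) * (n.choose v : ℝ)) ≤
        (1 - ((k : ℝ) + v - 2) / n) ^ v * (n : ℝ) ^ v := mul_le_mul_of_nonneg_left h2 hy
    have h4 : (v.factorial : ℝ) * ((1 - ((k : ℝ) + v - 2) / n) ^ v * (n.choose v : ℝ)) ≤
        (v.factorial : ℝ) * ((n + 1 - k).choose v : ℝ) := by
      calc _ = (1 - ((k : ℝ) + v - 2) / n) ^ v * ((v.factorial : ℝ) * (n.choose v : ℝ)) := by ring
        _ ≤ _ := h3
        _ = (n : ℝ) ^ v * (1 - ((k : ℝ) + v - 2) / n) ^ v := by ring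
        _ ≤ _ := h1
    exact le_of_mul_le_mul_left h4 hf

lemma P_zero {n k : ℕ} (hk : k ≤ n + 1) : P n 0 k = 1 := by
  unfold P
  refine (E_congr (Ψ := fun _ => 1) (fun p hp => ?_)).trans (E_one n)
  have : S p 0 n = n + 1 := by
    unfold S
    rw [filter_true_of_mem, card_range]
    intro i _
    -- every vertex descends from the root
    have hd := dec_of_mem hp
    rw [mem_PF] at hp
    induction i using Nat.strong_induction_on with
    | _ i ih =>
      rw [desc_iff]
      by_cases h0 : i = 0
      · exact Or.inl h0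
      · right
        by_cases hi : i ≤ n
        · have := hp.1 i (by omega) hi
          exact ih (p i) this (by rw [mem_range]; omega)
        · rw [hp.2 i (by omega)]
          exact desc_self p 0
  rw [this, if_pos hk]

end Pool.Agent.X139.UT
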