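import Mathlib

/-!
# Uniform attachment trees: parent functions, expectation, sizes of the subtrees
-/

set_option autoImplicit false

namespace Pool.Agent.X139.UT

open Finset
open scoped Classical

/-- the parent functions of the recursive trees with the vertices `0, ..., n` -/
noncomputable def PF : ℕ → Finset (ℕ → ℕ)
  | 0 => {fun _ => 0}
  | n + 1 => (PF n ×ˢ range (n + 1)).image (fun q => Function.update q.1 (n + 1) q.2)

lemma mem_PF (n : ℕ) (p : ℕ → ℕ) :
    p ∈ PF n ↔ (∀ i, 1 ≤ i → i ≤ n → p i < i) ∧ ∀ i, i = 0 ∨ n < i → p i = 0 := by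
  induction n generalizing p with
  | zero =>
    unfold PF
    rw [mem_singleton]
    constructor
    · rintro rfl
      exact ⟨fun i h1 h2 => by omega, fun _ _ => rfl⟩
    · rintro ⟨_, h⟩
      funext i
      exact h i (by omega)
  | succ n ih =>
    unfold PF
    rw [mem_image]
    constructor
    · rintro ⟨⟨q, j⟩, hq, rfl⟩
      rw [mem_product, ih, mem_range] at hq
      obtain ⟨⟨h1, h2⟩, h3⟩ := hq
      simp only at h1 h2 h3
      refine ⟨fun i hi hi' => ?_, fun i hi => ?_⟩
      · by_cases h : i = n + 1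
        · subst h
          simpa using h3
        · rw [Function.update_of_ne h]
          exact h1 i hi (by omega)
      · rw [Function.update_of_ne (by omega)]
        exact h2 i (by omega)
    · rintro ⟨h1, h2⟩
      refine ⟨(Function.update p (n + 1) 0, p (n + 1)), ?_, ?_⟩
      · rw [mem_product, ih, mem_range]
        refine ⟨⟨fun i hi hi' => ?_, fun i hi => ?_⟩, h1 (n + 1) (by omega) le_rfl⟩
        · simp only
          rw [Function.update_of_ne (by omega)]
          exact h1 i hi (by omega)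
        · simp only
          by_cases h : i = n + 1
          · subst h
            simp
          · rw [Function.update_of_ne h]
            exact h2 i (by omega)
      · simp

lemma sum_PF_succ (n : ℕ) (Φ : (ℕ → ℕ) → ℝ) :
    ∑ p ∈ PF (n + 1), Φ p =
      ∑ p ∈ PF n, ∑ j ∈ range (n + 1), Φ (Function.update p (n + 1) j) := by
  show ∑ p ∈ (PF n ×ˢ range (n + 1)).image (fun q => Function.update q.1 (n + 1) q.2), Φ p = _
  rw [sum_image, sum_product]
  rintro ⟨q, j⟩ hq ⟨q', j'⟩ hq' h
  rw [mem_coe, mem_product] at hq hq'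
  simp only at h hq hq'
  have hj : j = j' := by
    have := congrFun h (n + 1)
    simpa using this
  have hqq : q = q' := by
    funext i
    by_cases hi : i = n + 1
    · subst hi
      rw [((mem_PF n q).1 hq.1).2 _ (by omega), ((mem_PF n q').1 hq'.1).2 _ (by omega)]
    · have := congrFun h i
      rwa [Function.update_of_ne hi, Function.update_of_ne hi] at this
  rw [hj, hqq]

/-- expectation over the uniform choice of the parents -/
noncomputable def E (n : ℕ) (Φ : (ℕ → ℕ) → ℝ) : ℝ := (∑ p ∈ PF n, Φ p) / n.factorial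

lemma E_succ (n : ℕ) (Φ : (ℕ → ℕ) → ℝ) :
    E (n + 1) Φ = E n (fun p => (∑ j ∈ range (n + 1), Φ (Function.update p (n + 1) j)) / (n + 1)) := by
  unfold E
  rw [sum_PF_succ, ← sum_div, Nat.factorial_succ]
  push_cast
  rw [div_div]

lemma E_mono {n : ℕ} {Φ Ψ : (ℕ → ℕ) → ℝ} (h : ∀ p ∈ PF n, Φ p ≤ Ψ p) : E n Φ ≤ E n Ψ :=
  div_le_div_of_nonneg_right (sum_le_sum h) (Nat.cast_nonneg _)

lemma E_congr {n : ℕ} {Φ Ψ : (ℕ → ℕ) → ℝ} (h : ∀ p ∈ PF n, Φ p = Ψ p) : E n Φ = E n Ψ := by
  unfold E
  rw [sum_congr rfl h]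

lemma E_add (n : ℕ) (Φ Ψ : (ℕ → ℕ) → ℝ) : E n (fun p => Φ p + Ψ p) = E n Φ + E n Ψ := by
  unfold E
  rw [sum_add_distrib, add_div]

lemma E_mul (n : ℕ) (c : ℝ) (Φ : (ℕ → ℕ) → ℝ) : E n (fun p => c * Φ p) = c * E n Φ := by
  unfold E
  rw [← mul_sum, mul_div_assoc]

lemma E_sum {κ : Type*} (n : ℕ) (s : Finset κ) (Φ : κ → (ℕ → ℕ) → ℝ) :
    E n (fun p => ∑ i ∈ s, Φ i p) = ∑ i ∈ s, E n (Φ i) := by
  unfold E
  rw [sum_comm, sum_div]

lemma E_one (n : ℕ) : E n (fun _ => 1) = 1 := by
  induction n with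
  | zero => simp [E, PF]
  | succ n ih =>
    rw [E_succ]
    refine (E_congr (fun p _ => ?_)).trans ih
    rw [sum_const, card_range, nsmul_eq_mul, mul_one]
    push_cast
    exact div_self (by positivity)

lemma card_PF (n : ℕ) : (PF n).card = n.factorial := by
  have h := E_one n
  unfold E at h
  rw [sum_const, nsmul_eq_mul, mul_one, div_eq_one_iff_eq (by positivity)] at h
  exact_mod_cast h

lemma E_nonneg {n : ℕ} {Φ : (ℕ → ℕ) → ℝ} (h : ∀ p ∈ PF n, 0 ≤ Φ p) : 0 ≤ E n Φ :=
  div_nonneg (sum_nonneg h) (Nat.cast_nonneg _)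

/-! ### descendants -/

/-- `i` is a descendant of `v` (or `v` itself) -/
def desc (p : ℕ → ℕ) (v i : ℕ) : Prop := ∃ k, p^[k] i = v

/-- parents are not larger -/
def Dec (p : ℕ → ℕ) : Prop := ∀ i, p i ≤ i

lemma dec_of_mem {n : ℕ} {p : ℕ → ℕ} (h : p ∈ PF n) : Dec p := by
  intro i
  rw [mem_PF] at h
  by_cases hi : 1 ≤ i ∧ i ≤ n
  · exact (h.1 i hi.1 hi.2).le
  · rw [h.2 i (by omega)]
    exact Nat.zero_le _

lemma iter_le {p : ℕ → ℕ} (hp : Dec p) (k i : ℕ) : p^[k] i ≤ i := by
  induction k with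
  | zero => exact le_rfl
  | succ k ih => rw [Function.iterate_succ_apply']; exact (hp _).trans ih

lemma desc_self (p : ℕ → ℕ) (v : ℕ) : desc p v v := ⟨0, rfl⟩

lemma desc_iff (p : ℕ → ℕ) (v i : ℕ) : desc p v i ↔ i = v ∨ desc p v (p i) := by
  constructor
  · rintro ⟨k, hk⟩
    cases k with
    | zero => exact Or.inl hk
    | succ k => exact Or.inr ⟨k, by rwa [Function.iterate_succ_apply] at hk⟩
  · rintro (h | ⟨k, hk⟩)
    · exact ⟨0, h⟩
    · exact ⟨k + 1, by rwa [Function.iterate_succ_apply]⟩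

lemma desc_le {p : ℕ → ℕ} (hp : Dec p) {v i : ℕ} (h : desc p v i) : v ≤ i := by
  obtain ⟨k, rfl⟩ := h
  exact iter_le hp k i

lemma iter_update {p : ℕ → ℕ} (hp : Dec p) {n i : ℕ} (hi : i ≤ n) (j k : ℕ) :
    (Function.update p (n + 1) j)^[k] i = p^[k] i := by
  induction k with
  | zero => rfl
  | succ k ih =>
    rw [Function.iterate_succ_apply', Function.iterate_succ_apply', ih, Function.update_of_ne]
    have := iter_le hp k i
    omega

lemma desc_update {p : ℕ → ℕ} (hp : Dec p) {n i : ℕ} (hi : i ≤ n) (j v : ℕ) :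
    desc (Function.update p (n + 1) j) v i ↔ desc p v i := by
  unfold desc
  simp only [iter_update hp hi j]

lemma desc_new {p : ℕ → ℕ} (hp : Dec p) {n j : ℕ} (hj : j ≤ n) (v : ℕ) :
    desc (Function.update p (n + 1) j) v (n + 1) ↔ n + 1 = v ∨ desc p v j := by
  rw [desc_iff, Function.update_self, desc_update hp hj]

lemma desc_chain {p : ℕ → ℕ} (hp : Dec p) {u v j : ℕ} (huv : u < v) (hu : desc p u j)
    (hv : desc p v j) : desc p u v := by
  obtain ⟨k, hk⟩ := hv
  obtain ⟨l, hl⟩ := hu
  by_cases h : k ≤ l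
  · refine ⟨l - k, ?_⟩
    rw [← hk, ← Function.iterate_add_apply, Nat.sub_add_cancel h]
    exact hl
  · push Not at h
    exfalso
    have : p^[k - l] u = v := by
      rw [← hl, ← Function.iterate_add_apply, Nat.sub_add_cancel h.le]
      exact hk
    have h2 := iter_le hp (k - l) u
    omega

/-- the number of descendants of `v` among `0, ..., m` -/
noncomputable def S (p : ℕ → ℕ) (v m : ℕ) : ℕ := ((range (m + 1)).filter (fun i => desc p v i)).card

lemma S_le (p : ℕ → ℕ) (v m : ℕ) : S p v m ≤ m + 1 := by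
  unfold S
  refine (card_filter_le _ _).trans ?_
  rw [card_range]

lemma S_self {p : ℕ → ℕ} (hp : Dec p) (v : ℕ) : S p v v = 1 := by
  unfold S
  rw [card_eq_one]
  refine ⟨v, ?_⟩
  ext i
  rw [mem_filter, mem_range, mem_singleton]
  constructor
  · rintro ⟨h1, h2⟩
    have := desc_le hp h2
    omega
  · rintro rfl
    exact ⟨by omega, desc_self p i⟩

lemma S_update {p : ℕ → ℕ} (hp : Dec p) {n m : ℕ} (hm : m ≤ n) (j v : ℕ) :
    S (Function.update p (n + 1) j) v m = S p v m := by
  unfold S
  congr 1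
  apply filter_congr
  intro i hi
  rw [mem_range] at hi
  exact desc_update hp (by omega) j v

lemma S_succ {p : ℕ → ℕ} (hp : Dec p) {n j v : ℕ} (hj : j ≤ n) (hv : v ≤ n) :
    S (Function.update p (n + 1) j) v (n + 1) = S p v n + if desc p v j then 1 else 0 := by
  unfold S
  rw [range_add_one, filter_insert]
  have h1 : desc (Function.update p (n + 1) j) v (n + 1) ↔ desc p v j := by
    rw [desc_new hp hj]
    constructor
    · rintro (h | h)
      · omega
      · exact h
    · exact Or.inr
  have h2 : ((range (n + 1)).filter (fun i => desc (Function.update p (n + 1) j) v i)) =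
      (range (n + 1)).filter (fun i => desc p v i) := by
    apply filter_congr
    intro i hi
    rw [mem_range] at hi
    exact desc_update hp (by omega) j v
  rw [h2]
  by_cases h : desc p v j
  · rw [if_pos (h1.2 h), if_pos h, card_insert_of_notMem]
    rw [mem_filter, mem_range]
    omega
  · rw [if_neg (fun h' => h (h1.1 h')), if_neg h, add_zero]

/-- the transition operator of the urn -/
noncomputable def UU (m : ℕ) (h : ℕ → ℝ) (a : ℕ) : ℝ := h a + a * (h (a + 1) - h a) / (m + 1)

lemma sum_desc (p : ℕ → ℕ) (v n : ℕ) :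
    ∑ j ∈ range (n + 1), (if desc p v j then (1 : ℝ) else 0) = S p v n := by
  unfold S
  rw [card_filter]
  push_cast
  rfl

lemma sum_step (p : ℕ → ℕ) (v n : ℕ) (h : ℕ → ℝ) :
    (∑ j ∈ range (n + 1), h (S p v n + if desc p v j then 1 else 0)) / (n + 1) =
      UU n h (S p v n) := by
  have h1 : ∀ j ∈ range (n + 1), h (S p v n + if desc p v j then 1 else 0) =
      h (S p v n) + (if desc p v j then (1 : ℝ) else 0) * (h (S p v n + 1) - h (S p v n)) := by
    intro j _
    split_ifs <;> simp
  rw [sum_congr rfl h1, sum_add_distrib, ← sum_mul, sum_desc, sum_const, card_range,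
    nsmul_eq_mul]
  unfold UU
  have : (n : ℝ) + 1 ≠ 0 := by positivity
  push_cast
  field_simp

/-- functions which depend on the tree with the vertices `≤ m` only -/
def Inv (m : ℕ) (Φ : (ℕ → ℕ) → ℝ) : Prop :=
  ∀ n, m ≤ n → ∀ p ∈ PF n, ∀ j, j ≤ n → Φ (Function.update p (n + 1) j) = Φ p

lemma E_step {n m v : ℕ} (hm : m ≤ n) (hv : v ≤ n) {Φ : (ℕ → ℕ) → ℝ} (hΦ : Inv m Φ)
    (h : ℕ → ℝ) :
    E (n + 1) (fun p => Φ p * h (S p v (n + 1))) = E n (fun p => Φ p * UU n h (S p v n)) := by
  rw [E_succ]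
  apply E_congr
  intro p hp
  rw [← sum_step, mul_div_assoc', mul_sum]
  congr 1
  apply sum_congr rfl
  intro j hj
  rw [mem_range] at hj
  rw [hΦ n hm p hp j (by omega), S_succ (dec_of_mem hp) (by omega) hv]

/-- the conditional probability of a final size `≥ s` -/
noncomputable def FF (s : ℕ) : ℕ → ℕ → ℕ → ℝ
  | 0, _, a => if s ≤ a then 1 else 0
  | r + 1, m, a => UU m (FF s r (m + 1)) a

lemma Inv.mono {m m' : ℕ} (h : m ≤ m') {Φ : (ℕ → ℕ) → ℝ} (hΦ : Inv m Φ) : Inv m' Φ :=
  fun n hn => hΦ n (h.trans hn)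

lemma E_run (s r : ℕ) {m v : ℕ} (hv : v ≤ m) {Φ : (ℕ → ℕ) → ℝ} (hΦ : Inv m Φ) :
    E (m + r) (fun p => Φ p * if s ≤ S p v (m + r) then 1 else 0) =
      E m (fun p => Φ p * FF s r m (S p v m)) := by
  induction r generalizing m with
  | zero => rfl
  | succ r ih =>
    have h1 := ih (m := m + 1) (by omega) (hΦ.mono (by omega))
    have e : m + (r + 1) = m + 1 + r := by ring
    rw [e, h1]
    exact E_step le_rfl hv hΦ _

lemma FF_range (s r : ℕ) : ∀ m a : ℕ, a ≤ m + 1 → 0 ≤ FF s r m a ∧ FF s r m a ≤ 1 ∧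
    FF s r m a ≤ FF s r m (a + 1) := by
  induction r with
  | zero =>
    intro m a _
    unfold FF
    refine ⟨?_, ?_, ?_⟩
    · split_ifs <;> norm_num
    · split_ifs <;> norm_num
    · split_ifs with h1 h2
      · norm_num
      · omega
      · norm_num
      · norm_num
  | succ r ih =>
    intro m a ha
    obtain ⟨h0, h1, h2⟩ := ih (m + 1) a (by omega)
    obtain ⟨h3, h4, h5⟩ := ih (m + 1) (a + 1) (by omega)
    show 0 ≤ UU m (FF s r (m + 1)) a ∧ UU m (FF s r (m + 1)) a ≤ 1 ∧
      UU m (FF s r (m + 1)) a ≤ UU m (FF s r (m + 1)) (a + 1)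
    unfold UU
    set x := FF s r (m + 1) a
    set y := FF s r (m + 1) (a + 1)
    set z := FF s r (m + 1) (a + 1 + 1)
    have hm : (0 : ℝ) < m + 1 := by positivity
    have ha' : (a : ℝ) ≤ m + 1 := by exact_mod_cast ha
    have ha0 : (0 : ℝ) ≤ a := Nat.cast_nonneg a
    refine ⟨?_, ?_, ?_⟩
    · have : 0 ≤ a * (y - x) / (m + 1) := div_nonneg (mul_nonneg ha0 (by linarith)) hm.le
      linarith
    · have : a * (y - x) / (m + 1) ≤ y - x := by
        rw [div_le_iff₀ hm]
        nlinarith
      linarith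
    · push_cast
      have h6 : a * (y - x) / (m + 1) ≤ y - x := by
        rw [div_le_iff₀ hm]
        nlinarith
      have h7 : 0 ≤ (a + 1 : ℝ) * (z - y) / (m + 1) :=
        div_nonneg (mul_nonneg (by linarith) (by linarith)) hm.le
      linarith

/-- probability of a final size `≥ s` -/
noncomputable def P (n v s : ℕ) : ℝ := E n (fun p => if s ≤ S p v n then 1 else 0)

lemma inv_one (m : ℕ) : Inv m (fun _ => 1) := fun _ _ _ _ _ _ => rfl

lemma P_eq (s r m v : ℕ) (hv : v ≤ m) : P (m + r) v s = E m (fun p => FF s r m (S p v m)) := by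
  have h := E_run s r hv (inv_one m)
  simp only [one_mul] at h
  exact h

lemma P_eq' (s r v : ℕ) : P (v + r) v s = FF s r v 1 := by
  rw [P_eq s r v v le_rfl]
  have h : E v (fun p => FF s r v (S p v v)) = E v (fun _ => FF s r v 1 * 1) := by
    apply E_congr
    intro p hp
    rw [S_self (dec_of_mem hp), mul_one]
  rw [h, E_mul, E_one, mul_one]

lemma P_nonneg (n v s : ℕ) : 0 ≤ P n v s := E_nonneg fun p _ => by split_ifs <;> norm_num

/-- mean size -/
lemma E_S {u m : ℕ} (h : u ≤ m) : E m (fun p => (S p u m : ℝ)) = (m + 1) / (u + 1) := by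
  induction m with
  | zero =>
    have : u = 0 := by omega
    subst this
    have h1 : E 0 (fun p => (S p 0 0 : ℝ)) = E 0 (fun _ => 1) := by
      apply E_congr
      intro p hp
      rw [S_self (dec_of_mem hp)]
      norm_num
    rw [h1, E_one]
    norm_num
  | succ m ih =>
    by_cases hu : u = m + 1
    · subst hu
      have h1 : E (m + 1) (fun p => (S p (m + 1) (m + 1) : ℝ)) = E (m + 1) (fun _ => 1) := by
        apply E_congr
        intro p hp
        rw [S_self (dec_of_mem hp)]
        norm_num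
      rw [h1, E_one]
      push_cast
      rw [div_self]
      positivity
    · have hum : u ≤ m := by omega
      have h1 := E_step (n := m) (m := m) (v := u) le_rfl hum (inv_one m) (fun a => (a : ℝ))
      simp only [one_mul] at h1
      rw [h1]
      have h2 : E m (fun p => UU m (fun a => (a : ℝ)) (S p u m)) =
          E m (fun p => ((m + 2) / (m + 1) : ℝ) * (S p u m : ℝ)) := by
        apply E_congr
        intro p _
        unfold UU
        push_cast
        field_simp
        ring
      rw [h2, E_mul, ih hum]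
      push_cast
      field_simp
      ring

lemma inv_desc (u v : ℕ) : Inv v (fun p => if desc p u v then (1 : ℝ) else 0) := by
  intro n hn p hp j _
  show (if desc (Function.update p (n + 1) j) u v then (1 : ℝ) else 0) = if desc p u v then 1 else 0
  simp only [desc_update (dec_of_mem hp) hn j u]

lemma E_desc {u v : ℕ} (h : u < v) :
    E v (fun p => if desc p u v then (1 : ℝ) else 0) = 1 / (u + 1) := by
  obtain ⟨w, rfl⟩ : ∃ w, v = w + 1 := ⟨v - 1, by omega⟩
  rw [E_succ]
  have h1 : E w (fun p => (∑ j ∈ range (w + 1),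
      if desc (Function.update p (w + 1) j) u (w + 1) then (1 : ℝ) else 0) / (w + 1)) =
      E w (fun p => (1 / (w + 1) : ℝ) * (S p u w : ℝ)) := by
    apply E_congr
    intro p hp
    rw [← sum_desc p u w, div_eq_mul_one_div, mul_comm]
    congr 1
    apply sum_congr rfl
    intro j hj
    rw [mem_range] at hj
    have h2 : desc (Function.update p (w + 1) j) u (w + 1) ↔ desc p u j := by
      rw [desc_new (dec_of_mem hp) (by omega)]
      constructor
      · rintro (h | h)
        · omega
        · exact h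
      · exact Or.inr
    simp only [h2]
  rw [h1, E_mul, E_S (by omega)]
  field_simp

end Pool.Agent.X139.UT
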